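import Mathlib
import Pool.Agent.H.MP_d8b757_co.A

namespace Pool.Agent.Results.MP_d8b757_co.No
open Finset

/-- One turn of the cops: `f u v` pebbling steps are made from `u` to the adjacent vertex `v`,
at least one step in total, every cop taking part in at most one step. -/
def Step {V : Type} [Fintype V] (G : SimpleGraph V) (C C' : V → ℕ) : Prop :=
  ∃ f : V → V → ℕ, (∀ u v, f u v ≠ 0 → G.Adj u v) ∧ (∃ u v, f u v ≠ 0) ∧
    (∀ u, 2 * ∑ v, f u v ≤ C u) ∧ ∀ v, C' v = C v - 2 * ∑ w, f v w + ∑ u, f u v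

/-- `Win G C r`: with configuration `C`, the robber at `r` and the cops to move, the cops can
force a capture. -/
inductive Win {V : Type} [Fintype V] (G : SimpleGraph V) : (V → ℕ) → V → Prop
  | caught (C : V → ℕ) (r : V) : 0 < C r → Win G C r
  | capture (C C' : V → ℕ) (r : V) : Step G C C' → 0 < C' r → Win G C r
  | move (C C' : V → ℕ) (r : V) : Step G C C' →
      (∀ r', r' = r ∨ G.Adj r r' → Win G C' r') → Win G C r

/-- the cop pebbling number -/
noncomputable def pic {V : Type} [Fintype V] (G : SimpleGraph V) : ℕ :=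
  sInf {m | ∃ C : V → ℕ, ∑ v, C v = m ∧ ∀ r, Win G C r}

open Pool.Agent.H.MP_d8b757_co

section general
variable {V : Type} [Fintype V] {G : SimpleGraph V}

lemma step_size {C C' : V → ℕ} (h : Step G C C') : ∑ v, C' v < ∑ v, C v := by
  obtain ⟨f, -, ⟨u0, v0, h0⟩, h3, h4⟩ := h
  have e1 : ∑ v, C' v + ∑ v, 2 * ∑ w, f v w = ∑ v, C v + ∑ v, ∑ u, f u v := by
    rw [← sum_add_distrib, ← sum_add_distrib]
    refine sum_congr rfl fun v _ => ?_
    have := h3 v
    rw [h4 v]; omega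
  rw [← mul_sum, sum_comm (f := fun v u => f u v)] at e1
  have : 0 < ∑ u, ∑ v, f u v :=
    lt_of_lt_of_le (Nat.pos_of_ne_zero h0) ((single_le_sum (f := fun v => f u0 v)
      (fun _ _ => Nat.zero_le _) (mem_univ v0)).trans (single_le_sum (f := fun u => ∑ v, f u v)
      (fun _ _ => Nat.zero_le _) (mem_univ u0)))
  omega

lemma step_pot {C C' : V → ℕ} (h : Step G C C') (P W : V → ℝ) (h1 : ∀ v, P v ≤ W v)
    (h2 : ∀ u v, G.Adj u v → P v / 2 ≤ W u) : ∑ v, C' v * P v ≤ ∑ v, C v * W v := by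
  obtain ⟨f, a1, -, h3, h4⟩ := h
  have e : ∀ v, (C' v : ℝ) = (C v - 2 * ∑ w, (f v w : ℝ)) + ∑ u, (f u v : ℝ) := by
    intro v
    rw [h4 v, Nat.cast_add, Nat.cast_sub (h3 v)]
    push_cast; rfl
  simp only [e, add_mul, sum_add_distrib, sum_mul]
  rw [sum_comm (f := fun v u => (f u v : ℝ) * P v), ← sum_add_distrib]
  refine sum_le_sum fun u _ => ?_
  have b1 : 0 ≤ (C u : ℝ) - 2 * ∑ w, (f u w : ℝ) := by
    have : ((2 * ∑ v, f u v : ℕ) : ℝ) ≤ C u := by exact_mod_cast h3 u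
    push_cast at this; linarith
  have b2 : ∑ v, (f u v : ℝ) * P v ≤ ∑ v, (f u v : ℝ) * (2 * W u) := by
    refine sum_le_sum fun v _ => ?_
    by_cases c : f u v = 0
    · simp [c]
    · exact mul_le_mul_of_nonneg_left (by linarith [h2 u v (a1 u v c)]) (by positivity)
  rw [← sum_mul] at b2
  nlinarith [mul_le_mul_of_nonneg_left (h1 u) b1]

lemma step_one [DecidableEq V] {C : V → ℕ} {x y : V} (h : G.Adj x y) {n : ℕ} (hn : 0 < n)
    (hC : 2 * n ≤ C x) : ∃ C', Step G C C' ∧ n ≤ C' y := by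
  let f : V → V → ℕ := fun u v => if u = x ∧ v = y then n else 0
  refine ⟨fun v => C v - 2 * ∑ w, f v w + ∑ u, f u v, ⟨f, ?_, ⟨x, y, by simp [f]; omega⟩, ?_,
    fun _ => rfl⟩, ?_⟩
  · intro u v huv
    by_cases c : u = x ∧ v = y
    · rw [c.1, c.2]; exact h
    · simp [f, c] at huv
  · intro u
    by_cases c : u = x
    · subst c; simpa [f] using hC
    · simp [f, c]
  · have : ∑ u, f u y = n := by simp [f]
    beta_reduce
    omega

lemma pic_mem (G : SimpleGraph V) : ∃ C : V → ℕ, ∑ v, C v = pic G ∧ ∀ r, Win G C r :=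
  Nat.sInf_mem (s := {m | ∃ C : V → ℕ, ∑ v, C v = m ∧ ∀ r, Win G C r})
    ⟨_, fun _ => 1, rfl, fun r => Win.caught _ r Nat.one_pos⟩

lemma single_le_pot {C : V → ℕ} {P : V → ℝ} (hP : ∀ v, 0 ≤ P v) {v : V} (hv : 0 < C v) :
    P v ≤ ∑ w, C w * P w := by
  refine le_trans ?_ (single_le_sum (f := fun w => (C w : ℝ) * P w)
    (fun w _ => mul_nonneg (by positivity) (hP w)) (mem_univ v))
  have : (1:ℝ) ≤ C v := by exact_mod_cast hv
  nlinarith [hP v]

lemma fresh {b : ℕ} (C : V → ℕ) (hb : ∑ v, C v < b) (g : V → Fin b) :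
    ∃ y : Fin b, ∀ v, 0 < C v → g v ≠ y := by
  classical
  have : ((univ.filter fun v => 0 < C v).image g).card < (univ : Finset (Fin b)).card := by
    refine lt_of_le_of_lt card_image_le ?_
    rw [card_univ, Fintype.card_fin]
    refine lt_of_le_of_lt ?_ hb
    rw [card_filter]
    exact sum_le_sum fun v _ => by split_ifs <;> omega
  obtain ⟨y, -, hy⟩ := exists_mem_notMem_of_card_lt_card this
  exact ⟨y, fun v hv e => hy (mem_image.2 ⟨v, by simpa using hv, e⟩)⟩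

end general

abbrev VH (L b t : ℕ) : Type := (Fin L → Fin b) × Fin (t + 1)

def close {L b : ℕ} (x y : Fin L → Fin b) : Prop := ∃ p : ℕ, ∀ q : Fin L, q.val ≠ p → x q = y q

def HG (L b t : ℕ) : SimpleGraph (VH L b t) where
  Adj v w := v ≠ w ∧ v.2.val ≤ w.2.val + 1 ∧ w.2.val ≤ v.2.val + 1 ∧
    (v.2.val = t ∨ w.2.val = t ∨ close v.1 w.1)
  symm := ⟨fun v w ⟨h1, h2, h3, h4⟩ => ⟨h1.symm, h3, h2, by
    rcases h4 with h | h | ⟨p, h⟩
    · exact Or.inr (Or.inl h)
    · exact Or.inl h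
    · exact Or.inr (Or.inr ⟨p, fun q hq => (h q hq).symm⟩)⟩⟩
  loopless := ⟨fun v h => h.1 rfl⟩

variable {L b t : ℕ}

lemma HG_conn (hb : 0 < b) : (HG L b t).Connected := by
  rw [SimpleGraph.connected_iff_exists_forall_reachable]
  refine ⟨(fun _ => ⟨0, hb⟩, Fin.last t), ?_⟩
  rintro ⟨x, i⟩
  induction i using Fin.reverseInduction with
  | last =>
    by_cases e : ((fun _ => ⟨0, hb⟩, Fin.last t) : VH L b t) = (x, Fin.last t)
    · rw [e]
    · exact SimpleGraph.Adj.reachable ⟨e, by simp, by simp, Or.inl rfl⟩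
  | cast i ih =>
    refine ih.trans (SimpleGraph.Adj.reachable ⟨?_, by simp, by simp; omega,
      Or.inr (Or.inr ⟨0, fun _ _ => rfl⟩)⟩)
    intro e
    have := congrArg (fun v : VH L b t => v.2.val) e
    simp at this

lemma chase : ∀ i : ℕ, 1 ≤ i → ∀ (C : VH L b t → ℕ) (c r : VH L b t), c.2.val = i → r.2.val ≤ i →
    (i = t ∨ close c.1 r.1) → 2 ^ i ≤ C c → Win (HG L b t) C r := by
  intro i
  induction i with
  | zero => omega
  | succ i ih =>
    intro _ C c r h1 h2 h3 h4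
    have hp : 0 < 2 ^ i := by positivity
    rw [pow_succ] at h4
    by_cases c1 : i ≤ r.2.val
    · by_cases e : c = r
      · exact Win.caught _ _ (by rw [← e]; omega)
      · obtain ⟨C', s1, s2⟩ := step_one (G := HG L b t) (C := C) (x := c) (y := r)
          ⟨e, by omega, by omega, by
            rcases h3 with h | h
            · left; omega
            · exact Or.inr (Or.inr h)⟩ Nat.one_pos (by omega)
        exact Win.capture _ _ _ s1 s2
    · have hi : i < t + 1 := by have := c.2.2; omega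
      obtain ⟨C', s1, s2⟩ := step_one (G := HG L b t) (C := C) (x := c) (y := (r.1, ⟨i, hi⟩))
        ⟨fun e => by rw [e] at h1; simp at h1, by simp; omega, by simp; omega, by
          rcases h3 with h | h
          · left; omega
          · exact Or.inr (Or.inr h)⟩ hp (by omega)
      refine Win.move _ _ _ s1 ?_
      rintro r' (rfl | ⟨-, a2, a3, a4⟩)
      · exact ih (by omega) C' (r'.1, ⟨i, hi⟩) r' rfl (by omega) (Or.inr ⟨0, fun _ _ => rfl⟩) s2
      · have := c.2.2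
        refine ih (by omega) C' _ _ rfl (by omega) ?_ s2
        rcases a4 with h | h | h
        · omega
        · omega
        · exact Or.inr h

lemma pic_le (hb : 0 < b) (ht : 1 ≤ t) : pic (HG L b t) ≤ 2 ^ t := by
  let c : VH L b t := (fun _ => ⟨0, hb⟩, Fin.last t)
  refine Nat.sInf_le ⟨fun v => if v = c then 2 ^ t else 0, by simp, fun r => ?_⟩
  exact chase t ht _ c r rfl (by have := r.2.2; omega) (Or.inl rfl) (by simp)

def lag (τ : ℕ) (x r : Fin L → Fin b) : ℕ := (univ.filter fun p : Fin L => p.val < τ ∧ x p ≠ r p).card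

lemma lag_self (τ : ℕ) (r : Fin L → Fin b) : lag τ r r = 0 := by simp [lag]

lemma lag_close (τ : ℕ) {x x' : Fin L → Fin b} (h : close x x') (r : Fin L → Fin b) :
    lag τ x r ≤ lag τ x' r + 1 := by
  obtain ⟨p, hp⟩ := h
  have h1 : (univ.filter fun q : Fin L => q.val = p).card ≤ 1 :=
    card_le_one.2 fun a ha b hb => Fin.ext (by simp at ha hb; omega)
  refine le_trans (card_le_card ?_) ((card_union_le _ _).trans (Nat.add_le_add_left h1 _))
  intro q
  simp only [mem_filter, mem_univ, true_and, mem_union]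
  rintro ⟨a1, a2⟩
  by_cases c : q.val = p
  · exact Or.inr c
  · exact Or.inl ⟨a1, by rwa [← hp q c]⟩

lemma lag_update {τ : ℕ} (hτ : τ < L) {x r : Fin L → Fin b} {y : Fin b} (h : x ⟨τ, hτ⟩ ≠ y) :
    lag (τ + 1) x (Function.update r ⟨τ, hτ⟩ y) = lag τ x r + 1 := by
  unfold lag
  rw [← card_insert_of_notMem (a := ⟨τ, hτ⟩) (by simp)]
  congr 1
  ext q
  simp only [mem_filter, mem_univ, true_and, mem_insert]
  by_cases c : q = ⟨τ, hτ⟩
  · subst c; simp [h]
  · have : q.val ≠ τ := fun e => c (Fin.ext e)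
    rw [Function.update_of_ne c]
    simp only [c, false_or]
    constructor
    · rintro ⟨a, b⟩; exact ⟨by omega, b⟩
    · rintro ⟨a, b⟩; exact ⟨by omega, b⟩

lemma lag_init (ht : t ≤ L) {x r : Fin L → Fin b} (h : ∀ p, x p ≠ r p) : lag t x r = t := by
  unfold lag
  simp only [h, ne_eq, not_false_eq_true, and_true]
  rw [Fin.card_filter_val_lt]; omega

noncomputable def Wv (ε : ℝ) (r1 r2 : Fin L → Fin b) (τ1 τ2 : ℕ) (c : VH L b t × VH L b t) : ℝ :=
  WW t ε c.1.2 (lag τ1 c.1.1 r1) c.2.2 (lag τ2 c.2.1 r2)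

noncomputable def Pv (ε : ℝ) (r1 r2 : Fin L → Fin b) (τ1 τ2 : ℕ) (c : VH L b t × VH L b t) : ℝ :=
  PP t ε c.1.2 (lag τ1 c.1.1 r1) c.2.2 (lag τ2 c.2.1 r2)

lemma move_ok (r : Fin L → Fin b) (p : Fin L) (y : Fin b) :
    ((Function.update r p y, (0 : Fin (t + 1))) : VH L b t) = (r, 0) ∨
      (HG L b t).Adj (r, 0) (Function.update r p y, 0) := by
  by_cases e : ((Function.update r p y, (0 : Fin (t + 1))) : VH L b t) = (r, 0)
  · exact Or.inl e
  · exact Or.inr ⟨fun h => e h.symm, by simp, by simp, Or.inr (Or.inr ⟨p, fun q hq =>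
      (Function.update_of_ne (fun h => hq (by rw [h])) _ _).symm⟩)⟩

lemma lose {ε : ℝ} (hε : 0 < ε) (ht : 0 < t) (hu : ∀ j, u (t - 1) j ≤ ε / 2 ^ (t - 1 + j))
    {C : VH L b t × VH L b t → ℕ} {r : VH L b t × VH L b t} (hw : Win (HG L b t □ HG L b t) C r) :
    ∀ (r1 r2 : Fin L → Fin b) (τ1 τ2 : ℕ), r = ((r1, 0), (r2, 0)) → ∑ v, C v + τ1 ≤ L →
      ∑ v, C v + τ2 ≤ L → ∑ v, C v < b → ∑ v, C v * Wv ε r1 r2 τ1 τ2 v < 1 → False := by
  have P0 : ∀ (r1 r2 : Fin L → Fin b) (τ1 τ2 : ℕ) (v : VH L b t × VH L b t),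
      0 ≤ Pv ε r1 r2 τ1 τ2 v := fun _ _ _ _ _ => PP_pos hε _ _ _ _
  have P1 : ∀ (r1 r2 : Fin L → Fin b) (τ1 τ2 : ℕ),
      1 ≤ Pv (t := t) ε r1 r2 τ1 τ2 ((r1, 0), (r2, 0)) := by
    intro r1 r2 τ1 τ2
    simp only [Pv, lag_self]
    exact P_zero hε ht
  have PW : ∀ (r1 r2 : Fin L → Fin b) (τ1 τ2 : ℕ) (v : VH L b t × VH L b t),
      Pv ε r1 r2 τ1 τ2 v ≤ Wv ε r1 r2 τ1 τ2 v := fun _ _ _ _ _ => P_le_W _ _ _ _
  have st : ∀ (r1 r2 : Fin L → Fin b) (τ1 τ2 : ℕ) (v w : VH L b t × VH L b t),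
      (HG L b t □ HG L b t).Adj v w → Pv ε r1 r2 τ1 τ2 w / 2 ≤ Wv ε r1 r2 τ1 τ2 v := by
    intro r1 r2 τ1 τ2 v w h
    have := v.1.2.2
    have := v.2.2.2
    have := w.1.2.2
    have := w.2.2.2
    rcases h with ⟨⟨-, a2, -, a4⟩, e⟩ | ⟨⟨-, a2, -, a4⟩, e⟩
    · unfold Pv Wv
      rw [← e]
      exact stepA hε hu (by omega) (by omega) (by omega) a2
        (a4.imp id (Or.imp id fun h => lag_close _ h _))
    · unfold Pv Wv
      rw [← e, PP_symm, WW_symm]
      exact stepA hε hu (by omega) (by omega) (by omega) a2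
        (a4.imp id (Or.imp id fun h => lag_close _ h _))
  induction hw with
  | caught C r h =>
    rintro r1 r2 τ1 τ2 rfl - - - h4
    have := single_le_pot (P := Wv ε r1 r2 τ1 τ2)
      (fun v => (P0 _ _ _ _ v).trans (PW _ _ _ _ v)) h
    linarith [P1 r1 r2 τ1 τ2, PW r1 r2 τ1 τ2 ((r1, 0), (r2, 0))]
  | capture C C' r hs h =>
    rintro r1 r2 τ1 τ2 rfl - - - h4
    have := single_le_pot (P0 r1 r2 τ1 τ2) h
    linarith [P1 r1 r2 τ1 τ2, step_pot hs _ _ (PW r1 r2 τ1 τ2) (st r1 r2 τ1 τ2)]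
  | move C C' r hs _ ih =>
    rintro r1 r2 τ1 τ2 rfl h1 h2 h3 h4
    have s1 := step_size hs
    have s2 := step_pot hs _ _ (PW r1 r2 τ1 τ2) (st r1 r2 τ1 τ2)
    have t1 : τ1 < L := by omega
    have t2 : τ2 < L := by omega
    obtain ⟨y1, hy1⟩ := fresh C' (s1.trans h3) (fun v => v.1.1 ⟨τ1, t1⟩)
    obtain ⟨y2, hy2⟩ := fresh C' (s1.trans h3) (fun v => v.2.1 ⟨τ2, t2⟩)
    have key : ∑ v, C' v * Wv ε (Function.update r1 ⟨τ1, t1⟩ y1) r2 (τ1 + 1) τ2 v +
        ∑ v, C' v * Wv ε r1 (Function.update r2 ⟨τ2, t2⟩ y2) τ1 (τ2 + 1) v ≤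
        2 * ∑ v, C' v * Pv ε r1 r2 τ1 τ2 v := by
      rw [← sum_add_distrib, mul_sum]
      refine sum_le_sum fun v _ => ?_
      rcases Nat.eq_zero_or_pos (C' v) with c | c
      · simp [c]
      · have a1 := single_le_pot (P0 r1 r2 τ1 τ2) c
        have a2 := robber hε (show Pv ε r1 r2 τ1 τ2 v < 1 by linarith)
        unfold Wv
        rw [lag_update t1 (hy1 v c), lag_update t2 (hy2 v c)]
        have := mul_le_mul_of_nonneg_left a2 (Nat.cast_nonneg (C' v))
        unfold Pv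
        linarith
    by_cases c : ∑ v, C' v * Wv ε (Function.update r1 ⟨τ1, t1⟩ y1) r2 (τ1 + 1) τ2 v < 1
    · refine ih _ ?_ _ _ _ _ rfl (by omega) (by omega) (by omega) c
      rcases move_ok (t := t) r1 ⟨τ1, t1⟩ y1 with h | h
      · left; rw [h]
      · right; exact Or.inl ⟨h, rfl⟩
    · refine ih _ ?_ r1 (Function.update r2 ⟨τ2, t2⟩ y2) τ1 (τ2 + 1) rfl (by omega) (by omega)
        (by omega) (by linarith)
      rcases move_ok (t := t) r2 ⟨τ2, t2⟩ y2 with h | h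
      · left; rw [h]
      · right; exact Or.inr ⟨h, rfl⟩

theorem result : ¬ ∃ a : ℝ, 3 / 2 ≤ a ∧ ∀ (V W : Type) [Fintype V] [Fintype W]
    (G : SimpleGraph V) (H : SimpleGraph W), G.Connected → H.Connected →
    (pic (G □ H) : ℝ) ≤ a * pic G * pic H := by
  rintro ⟨a, ha, h⟩
  have hε : 0 < 1 / (4 * a) := by positivity
  obtain ⟨T, hT⟩ := u_small hε
  obtain ⟨M, hM⟩ := exists_nat_ge (a * 2 ^ (T + 2) * 2 ^ (T + 2))
  set t := T + 2 with ht
  have hb : 0 < M + 1 := by omega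
  have h1 := h _ _ (HG (M + t) (M + 1) t) (HG (M + t) (M + 1) t) (HG_conn hb) (HG_conn hb)
  have h2 : (pic (HG (M + t) (M + 1) t) : ℝ) ≤ 2 ^ t := by
    exact_mod_cast pic_le hb (by omega)
  obtain ⟨C, hC, hw⟩ := pic_mem (HG (M + t) (M + 1) t □ HG (M + t) (M + 1) t)
  have h3 : ((∑ v, C v : ℕ) : ℝ) ≤ a * 2 ^ t * 2 ^ t := by
    rw [hC]
    refine h1.trans ?_
    gcongr
  have h4 : ∑ v, C v ≤ M := by exact_mod_cast h3.trans hM
  choose r1 hr1 using fun p => fresh C (Nat.lt_succ_of_le h4) (fun v => v.1.1 p)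
  choose r2 hr2 using fun p => fresh C (Nat.lt_succ_of_le h4) (fun v => v.2.1 p)
  refine lose hε (by omega) (fun j => hT _ _ (by omega)) (hw ((r1, 0), (r2, 0))) r1 r2 t t rfl
    (by omega) (by omega) (by omega) ?_
  have h5 : ∑ v, C v * Wv (1 / (4 * a)) r1 r2 t t v ≤ ∑ v, C v * (1 / (4 * a) * 2 / 2 ^ (t + t)) := by
    refine sum_le_sum fun v _ => ?_
    rcases Nat.eq_zero_or_pos (C v) with c | c
    · simp [c]
    · refine mul_le_mul_of_nonneg_left ?_ (Nat.cast_nonneg _)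
      unfold Wv
      rw [lag_init (by omega) (fun p => hr1 p v c), lag_init (by omega) (fun p => hr2 p v c)]
      exact W_init hε (by omega) _ _
  rw [← sum_mul, ← Nat.cast_sum] at h5
  have h6 : a * 2 ^ t * 2 ^ t * (1 / (4 * a) * 2 / 2 ^ (t + t)) = 1 / 2 := by
    have : a ≠ 0 := by positivity
    rw [pow_add (2:ℝ) t t]
    generalize hx : (2:ℝ) ^ t = x
    have : x ≠ 0 := by rw [← hx]; positivity
    field_simp; norm_num
  have := mul_le_mul_of_nonneg_right h3 (show 0 ≤ 1 / (4 * a) * 2 / 2 ^ (t + t) by positivity)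
  linarith

end Pool.Agent.Results.MP_d8b757_co.No
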